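import Mathlib

/-!
# A determinant identity for two blocks joined by one edge
-/

set_option autoImplicit false

namespace Pool.Agent.W214.LE

open Matrix

variable {m n : Type} [Fintype m] [DecidableEq m] [Fintype n] [DecidableEq n]

/-- the block matrix with one off-diagonal entry in each block -/
theorem det_two (A : Matrix m m ℂ) (B : Matrix n n ℂ) (r : m) (u : n) :
    (fromBlocks A (Matrix.single r u 1) (Matrix.single u r 1) B).det =
      A.det * B.det - (A.updateRow r (Pi.single r 1)).det * (B.updateRow u (Pi.single u 1)).det := by
  set N := fromBlocks A (Matrix.single r u 1) (Matrix.single u r 1) B with hN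
  set T := N.updateRow (Sum.inl r) (Pi.single (Sum.inr u) 1) with hT
  have h1 : N.det = (N.updateRow (Sum.inl r) (Sum.elim (A r) 0)).det + T.det := by
    rw [hT, ← Matrix.det_updateRow_add]
    congr 1
    ext i j
    by_cases hi : i = Sum.inl r
    · subst hi
      rw [Matrix.updateRow_self]
      rcases j with j | j
      · simp [hN]
      · by_cases hj : j = u
        · subst hj
          simp [hN]
        · have : Sum.inr j ≠ (Sum.inr u : m ⊕ n) := fun h => hj (Sum.inr_injective h)
          simp [hN, Matrix.single_apply, Pi.single_apply, hj, Ne.symm hj]
    · rw [Matrix.updateRow_ne hi]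
  have h2 : (N.updateRow (Sum.inl r) (Sum.elim (A r) 0)).det = A.det * B.det := by
    have : N.updateRow (Sum.inl r) (Sum.elim (A r) 0) =
        fromBlocks A 0 (Matrix.single u r 1) B := by
      ext i j
      by_cases hi : i = Sum.inl r
      · subst hi
        rw [Matrix.updateRow_self]
        rcases j with j | j <;> simp
      · rw [Matrix.updateRow_ne hi]
        rcases i with i | i
        · have hir : r ≠ i := fun h => hi (by rw [h])
          rcases j with j | j
          · simp [hN]
          · simp [hN, Matrix.single_apply, hir]
        · rcases j with j | j <;> simp [hN]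
    rw [this, Matrix.det_fromBlocks_zero₁₂]
  set T1 := T.updateRow (Sum.inr u) (Pi.single (Sum.inl r) 1) with hT1
  have h3 : T.det = T1.det + (T.updateRow (Sum.inr u) (Sum.elim 0 (B u))).det := by
    rw [hT1, ← Matrix.det_updateRow_add]
    congr 1
    ext i j
    by_cases hi : i = Sum.inr u
    · subst hi
      rw [Matrix.updateRow_self]
      have hne : (Sum.inr u : m ⊕ n) ≠ Sum.inl r := by simp
      rw [hT, Matrix.updateRow_ne hne]
      rcases j with j | j
      · by_cases hj : j = r
        · subst hj
          simp [hN]
        · simp [hN, Matrix.single_apply, Pi.single_apply, hj, Ne.symm hj]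
      · simp [hN]
    · rw [Matrix.updateRow_ne hi]
  have h4 : (T.updateRow (Sum.inr u) (Sum.elim 0 (B u))).det = 0 := by
    have : T.updateRow (Sum.inr u) (Sum.elim 0 (B u)) =
        fromBlocks (A.updateRow r 0) (Matrix.single r u 1) 0 B := by
      ext i j
      by_cases hi : i = Sum.inr u
      · subst hi
        rw [Matrix.updateRow_self]
        rcases j with j | j <;> simp
      · rw [Matrix.updateRow_ne hi, hT]
        by_cases hi2 : i = Sum.inl r
        · subst hi2
          rw [Matrix.updateRow_self]
          rcases j with j | j
          · simp
          · by_cases hj : j = u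
            · subst hj
              simp
            · simp [Matrix.single_apply, Pi.single_apply, hj, Ne.symm hj]
        · rw [Matrix.updateRow_ne hi2]
          rcases i with i | i
          · have hir : i ≠ r := fun h => hi2 (by rw [h])
            rcases j with j | j
            · simp [hN, Matrix.updateRow_ne hir]
            · simp [hN, Matrix.single_apply, Ne.symm hir]
          · have hiu : u ≠ i := fun h => hi (by rw [h])
            rcases j with j | j
            · simp [hN, Matrix.single_apply, hiu]
            · simp [hN]
    rw [this, Matrix.det_fromBlocks_zero₂₁, Matrix.det_eq_zero_of_row_eq_zero r (by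
      intro j
      simp), zero_mul]
  have h5 : T1.det = -((A.updateRow r (Pi.single r 1)).det *
      (B.updateRow u (Pi.single u 1)).det) := by
    have hp := Matrix.det_permute (Equiv.swap (Sum.inl r) (Sum.inr u : m ⊕ n)) T1
    rw [Equiv.Perm.sign_swap (by simp)] at hp
    have : T1.submatrix (Equiv.swap (Sum.inl r) (Sum.inr u : m ⊕ n)) id =
        fromBlocks (A.updateRow r (Pi.single r 1)) 0 0 (B.updateRow u (Pi.single u 1)) := by
      ext i j
      rw [Matrix.submatrix_apply, id]
      by_cases hi : i = Sum.inl r
      · subst hi
        rw [Equiv.swap_apply_left, hT1, Matrix.updateRow_self]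
        rcases j with j | j
        · simp [Pi.single_apply]
        · simp
      · by_cases hi2 : i = Sum.inr u
        · subst hi2
          rw [Equiv.swap_apply_right, hT1, Matrix.updateRow_ne (by simp), hT,
            Matrix.updateRow_self]
          rcases j with j | j
          · simp
          · simp [Pi.single_apply]
        · rw [Equiv.swap_apply_of_ne_of_ne hi hi2, hT1, Matrix.updateRow_ne hi2, hT,
            Matrix.updateRow_ne hi]
          rcases i with i | i
          · have hir : i ≠ r := fun h => hi (by rw [h])
            rcases j with j | j
            · simp [hN, Matrix.updateRow_ne hir]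
            · simp [hN, Matrix.single_apply, Ne.symm hir]
          · have hiu : i ≠ u := fun h => hi2 (by rw [h])
            rcases j with j | j
            · simp [hN, Matrix.single_apply, Ne.symm hiu]
            · simp [hN, Matrix.updateRow_ne hiu]
    rw [this, Matrix.det_fromBlocks_zero₁₂] at hp
    rw [hp]
    simp
  rw [h1, h2, h3, h4, h5]
  ring

/-- the determinant as a function of a diagonal entry -/
theorem det_add_single (A : Matrix m m ℂ) (r : m) (w : ℂ) :
    (A + w • Matrix.single r r 1).det = A.det + w * (A.updateRow r (Pi.single r 1)).det := by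
  have h1 : A + w • Matrix.single r r 1 = A.updateRow r (A r + w • Pi.single r 1) := by
    ext i j
    by_cases hi : i = r
    · subst hi
      rw [Matrix.updateRow_self]
      simp [Matrix.single_apply, Pi.single_apply, eq_comm]
    · rw [Matrix.updateRow_ne hi]
      simp [Matrix.single_apply, Ne.symm hi]
  rw [h1, Matrix.det_updateRow_add, Matrix.det_updateRow_smul, Matrix.updateRow_eq_self]

theorem updateRow_add_single (A : Matrix m m ℂ) (r : m) (w : ℂ) :
    (A + w • Matrix.single r r 1).updateRow r (Pi.single r 1) = A.updateRow r (Pi.single r 1) := by
  ext i j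
  by_cases hi : i = r
  · subst hi
    rw [Matrix.updateRow_self, Matrix.updateRow_self]
  · rw [Matrix.updateRow_ne hi, Matrix.updateRow_ne hi]
    simp [Matrix.single_apply, Ne.symm hi]

/-- the determinant of the joined matrix from the two parts -/
theorem det_join (A : Matrix m m ℂ) (B : Matrix n n ℂ) (r : m) (u : n) (P1 Q1 P2 Q2 : ℂ)
    (hA : ∀ w : ℂ, (A + w • Matrix.single r r 1).det = P1 + w * Q1)
    (hB : ∀ w : ℂ, (B + w • Matrix.single u u 1).det = P2 + w * Q2) (w : ℂ) :
    (fromBlocks (A + (w - 1) • Matrix.single r r 1) (Matrix.single r u 1) (Matrix.single u r 1)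
      (B + (-1 : ℂ) • Matrix.single u u 1)).det =
      (P1 * P2 - Q1 * P2 - P1 * Q2) + w * (Q1 * (P2 - Q2)) := by
  have hQ1 : (A.updateRow r (Pi.single r 1)).det = Q1 := by
    have h0 := hA 0
    have h1 := hA 1
    rw [det_add_single] at h0 h1
    linear_combination h1 - h0
  have hQ2 : (B.updateRow u (Pi.single u 1)).det = Q2 := by
    have h0 := hB 0
    have h1 := hB 1
    rw [det_add_single] at h0 h1
    linear_combination h1 - h0
  rw [det_two, updateRow_add_single, updateRow_add_single, hQ1, hQ2, hA, hB]
  ring

end Pool.Agent.W214.LE
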