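import Pool.Agent.W39.LE.Stm
import Pool.Agent.W214.LE.Blk

/-!
# LEN-JOIN: determinant and matching of two graphs joined by an edge
-/

set_option autoImplicit false

namespace Pool.Agent.W214.LE

open Matrix Pool.W39.LE Pool.W39.LE.BT

theorem enc_inst {V : Type} (i1 i2 : Fintype V) (d1 d2 : DecidableEq V) (G : SimpleGraph V)
    (r1 r2 : DecidableRel G.Adj) (r : V) (t : BT) (h : @Enc V i1 d1 G r1 r t) :
    @Enc V i2 d2 G r2 r t := by
  obtain rfl : i1 = i2 := Subsingleton.elim _ _
  obtain rfl : d1 = d2 := Subsingleton.elim _ _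
  obtain rfl : r1 = r2 := Subsingleton.elim _ _
  exact h

theorem ent {V : Type} [Fintype V] [DecidableEq V] (G : SimpleGraph V) [DecidableRel G.Adj]
    (z : ℂ) (i j : V) : (Matrix.scalar V z - G.lapMatrix ℂ) i j =
      (if i = j then z - (G.degree i : ℂ) else 0) + (if G.Adj i j then 1 else 0) := by
  unfold SimpleGraph.lapMatrix SimpleGraph.degMatrix
  rw [Matrix.sub_apply, Matrix.sub_apply, Matrix.scalar_apply, SimpleGraph.adjMatrix_apply,
    Matrix.diagonal_apply, Matrix.diagonal_apply]
  by_cases h : i = j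
  · subst h
    simp
  · simp [h]

theorem sum_split {V : Type} [Fintype V] (S : Set V) [Fintype S] [Fintype ↥Sᶜ] (f : V → ℂ) :
    ∑ v, f v = ∑ a : S, f a + ∑ b : ↥Sᶜ, f b := by
  classical
  rw [← (Equiv.Set.sumCompl S).sum_comp f, Fintype.sum_sum_type]
  simp

theorem sum_same {V : Type} (G : SimpleGraph V) [DecidableRel G.Adj] (S : Set V) [Fintype S]
    [DecidableRel (G.induce S).Adj] (i : S) : (∑ a : S, if G.Adj (i : V) (a : V) then (1 : ℂ) else 0) =
    ∑ a : S, if (G.induce S).Adj i a then (1 : ℂ) else 0 := by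
  refine Finset.sum_congr rfl fun a _ => ?_
  by_cases h : G.Adj (i : V) (a : V)
  · rw [if_pos h, if_pos (show (G.induce S).Adj i a from h)]
  · rw [if_neg h, if_neg (show ¬ (G.induce S).Adj i a from h)]

section

variable {V : Type} [Fintype V] [DecidableEq V] (G : SimpleGraph V) [DecidableRel G.Adj]
  (r u : V) (S : Set V) [Fintype S] [Fintype ↥Sᶜ] [DecidableEq S] [DecidableEq ↥Sᶜ]
  [DecidableRel (G.induce S).Adj] [DecidableRel (G.induce Sᶜ).Adj]

theorem deg_in (hr : r ∈ S) (hu : u ∈ Sᶜ) (hru : G.Adj r u)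
    (hS : ∀ a ∈ S, ∀ b, b ∉ S → G.Adj a b → a = r ∧ b = u) (i : S) :
    (G.degree (i : V) : ℂ) = ((G.induce S).degree i : ℂ) + (if i = ⟨r, hr⟩ then 1 else 0) := by
  rw [SimpleGraph.degree_eq_sum_if_adj, SimpleGraph.degree_eq_sum_if_adj, sum_split S,
    sum_same G S i]
  congr 1
  have h1 : ∀ b : ↥Sᶜ, (if G.Adj (i : V) (b : V) then (1 : ℂ) else 0) =
      if b = ⟨u, hu⟩ then (if i = ⟨r, hr⟩ then 1 else 0) else 0 := by
    intro b
    by_cases h : G.Adj (i : V) (b : V)
    · obtain ⟨h2, h3⟩ := hS i i.2 b b.2 h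
      have hi : i = ⟨r, hr⟩ := Subtype.ext h2
      have hb : b = ⟨u, hu⟩ := Subtype.ext h3
      rw [if_pos h, if_pos hb, if_pos hi]
    · rw [if_neg h]
      by_cases hb : b = ⟨u, hu⟩
      · rw [if_pos hb]
        by_cases hi : i = ⟨r, hr⟩
        · exfalso
          apply h
          rw [hi, hb]
          exact hru
        · rw [if_neg hi]
      · rw [if_neg hb]
  rw [Finset.sum_congr rfl fun b _ => h1 b, Finset.sum_ite_eq' Finset.univ]
  simp

theorem deg_out (hr : r ∈ S) (hu : u ∈ Sᶜ) (hru : G.Adj r u)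
    (hS : ∀ a ∈ S, ∀ b, b ∉ S → G.Adj a b → a = r ∧ b = u) (j : ↥Sᶜ) :
    (G.degree (j : V) : ℂ) = ((G.induce Sᶜ).degree j : ℂ) + (if j = ⟨u, hu⟩ then 1 else 0) := by
  rw [SimpleGraph.degree_eq_sum_if_adj, SimpleGraph.degree_eq_sum_if_adj, sum_split S, add_comm,
    sum_same G Sᶜ j]
  congr 1
  have h1 : ∀ a : S, (if G.Adj (j : V) (a : V) then (1 : ℂ) else 0) =
      if a = ⟨r, hr⟩ then (if j = ⟨u, hu⟩ then 1 else 0) else 0 := by
    intro a
    by_cases h : G.Adj (j : V) (a : V)
    · obtain ⟨h2, h3⟩ := hS a a.2 j j.2 h.symm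
      have ha : a = ⟨r, hr⟩ := Subtype.ext h2
      have hj : j = ⟨u, hu⟩ := Subtype.ext h3
      rw [if_pos h, if_pos ha, if_pos hj]
    · rw [if_neg h]
      by_cases ha : a = ⟨r, hr⟩
      · rw [if_pos ha]
        by_cases hj : j = ⟨u, hu⟩
        · exfalso
          apply h
          rw [ha, hj]
          exact hru.symm
        · rw [if_neg hj]
      · rw [if_neg ha]
  rw [Finset.sum_congr rfl fun b _ => h1 b, Finset.sum_ite_eq' Finset.univ]
  simp

theorem blocks (hr : r ∈ S) (hu : u ∈ Sᶜ) (hru : G.Adj r u)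
    (hS : ∀ a ∈ S, ∀ b, b ∉ S → G.Adj a b → a = r ∧ b = u) [DecidablePred (· ∈ S)] (z w : ℂ) :
    (Matrix.scalar V z - G.lapMatrix ℂ + w • Matrix.single r r 1).submatrix
      (Equiv.Set.sumCompl S) (Equiv.Set.sumCompl S) =
      fromBlocks ((Matrix.scalar S z - (G.induce S).lapMatrix ℂ) +
          (w - 1) • Matrix.single ⟨r, hr⟩ ⟨r, hr⟩ 1)
        (Matrix.single ⟨r, hr⟩ ⟨u, hu⟩ 1) (Matrix.single ⟨u, hu⟩ ⟨r, hr⟩ 1)
        ((Matrix.scalar ↥Sᶜ z - (G.induce Sᶜ).lapMatrix ℂ) +
          (-1 : ℂ) • Matrix.single ⟨u, hu⟩ ⟨u, hu⟩ 1) := by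
  have hne : r ≠ u := hru.ne
  ext i j
  rw [Matrix.submatrix_apply, Matrix.add_apply, ent, Matrix.smul_apply, Matrix.single_apply]
  rcases i with i | i <;> rcases j with j | j
  · rw [Equiv.Set.sumCompl_apply_inl, Equiv.Set.sumCompl_apply_inl, Matrix.fromBlocks_apply₁₁,
      Matrix.add_apply, ent, Matrix.smul_apply, Matrix.single_apply, deg_in G r u S hr hu hru hS i]
    have e1 : ((i : V) = (j : V)) ↔ i = j := Subtype.ext_iff.symm
    have e2 : (r = (i : V)) ↔ (⟨r, hr⟩ : S) = i := (Subtype.ext_iff (a1 := (⟨r, hr⟩ : S))).symm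
    have e3 : (r = (j : V)) ↔ (⟨r, hr⟩ : S) = j := (Subtype.ext_iff (a1 := (⟨r, hr⟩ : S))).symm
    have e4 : (G.induce S).Adj i j ↔ G.Adj (i : V) (j : V) := Iff.rfl
    simp only [e1, e2, e3, e4, smul_eq_mul]
    by_cases hij : i = j
    · subst hij
      by_cases hi : (⟨r, hr⟩ : S) = i
      · simp [hi]
        ring
      · simp [hi, Ne.symm hi]
    · have h3 : ¬ ((⟨r, hr⟩ : S) = i ∧ (⟨r, hr⟩ : S) = j) := fun h => hij (h.1.symm.trans h.2)
      simp [hij, h3]
  · rw [Equiv.Set.sumCompl_apply_inl, Equiv.Set.sumCompl_apply_inr, Matrix.fromBlocks_apply₁₂,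
      Matrix.single_apply]
    have h1 : (i : V) ≠ (j : V) := fun h => j.2 (h ▸ i.2)
    have h2 : ¬ (r = (i : V) ∧ r = (j : V)) := fun h => h1 (h.1.symm.trans h.2)
    rw [if_neg h1, if_neg h2, smul_zero, add_zero, zero_add]
    congr 1
    rw [eq_iff_iff]
    constructor
    · intro h
      obtain ⟨h3, h4⟩ := hS i i.2 j j.2 h
      exact ⟨(Subtype.ext h3).symm, (Subtype.ext h4).symm⟩
    · rintro ⟨h3, h4⟩
      rw [← h3, ← h4]
      exact hru
  · rw [Equiv.Set.sumCompl_apply_inl, Equiv.Set.sumCompl_apply_inr, Matrix.fromBlocks_apply₂₁,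
      Matrix.single_apply]
    have h1 : (i : V) ≠ (j : V) := fun h => i.2 (h ▸ j.2)
    have h2 : ¬ (r = (i : V) ∧ r = (j : V)) := fun h => h1 (h.1.symm.trans h.2)
    rw [if_neg h1, if_neg h2, smul_zero, add_zero, zero_add]
    congr 1
    rw [eq_iff_iff]
    constructor
    · intro h
      obtain ⟨h3, h4⟩ := hS j j.2 i i.2 h.symm
      exact ⟨(Subtype.ext h4).symm, (Subtype.ext h3).symm⟩
    · rintro ⟨h3, h4⟩
      rw [← h3, ← h4]
      exact hru.symm
  · rw [Equiv.Set.sumCompl_apply_inr, Equiv.Set.sumCompl_apply_inr, Matrix.fromBlocks_apply₂₂,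
      Matrix.add_apply, ent, Matrix.smul_apply, Matrix.single_apply,
      deg_out G r u S hr hu hru hS i]
    have e1 : ((i : V) = (j : V)) ↔ i = j := Subtype.ext_iff.symm
    have e4 : (G.induce Sᶜ).Adj i j ↔ G.Adj (i : V) (j : V) := Iff.rfl
    have h2 : ¬ (r = (i : V) ∧ r = (j : V)) := fun h => i.2 (h.1 ▸ hr)
    rw [if_neg h2]
    simp only [e1, e4, smul_eq_mul]
    by_cases hij : i = j
    · subst hij
      by_cases hi : (⟨u, hu⟩ : ↥Sᶜ) = i
      · simp [hi]
        ring
      · simp [hi, Ne.symm hi]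
    · have h3 : ¬ ((⟨u, hu⟩ : ↥Sᶜ) = i ∧ (⟨u, hu⟩ : ↥Sᶜ) = j) :=
        fun h => hij (h.1.symm.trans h.2)
      simp [hij, h3]

end

/-- matchings indexed by a finite type -/
theorem match_of {V : Type} {ι : Type} [Fintype ι] {k : ℕ} (h : Fintype.card ι = k)
    (Q : V → V → Prop) (P : V → Prop) (f : ι × Bool → V) (hf : Function.Injective f)
    (hQ : ∀ i, Q (f (i, false)) (f (i, true))) (hP : ∀ p, P (f p)) :
    ∃ f : Fin k × Bool → V, Function.Injective f ∧ (∀ i, Q (f (i, false)) (f (i, true))) ∧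
      ∀ p, P (f p) := by
  have e := (Fintype.equivFinOfCardEq h).symm
  refine ⟨fun p => f (e p.1, p.2), ?_, fun i => hQ _, fun p => hP _⟩
  intro p q hpq
  have := hf hpq
  simp only [Prod.mk.injEq] at this
  exact Prod.ext (e.injective this.1) this.2

theorem join_enc {V : Type} [Fintype V] [DecidableEq V] (G : SimpleGraph V) [DecidableRel G.Adj]
    (r u : V) (S : Set V) [Fintype S] [Fintype ↥Sᶜ] [DecidableEq S] [DecidableEq ↥Sᶜ]
    [DecidableRel (G.induce S).Adj] [DecidableRel (G.induce Sᶜ).Adj]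
    (hr : r ∈ S) (hu : u ∈ Sᶜ) (hru : G.Adj r u)
    (hS : ∀ a ∈ S, ∀ b, b ∉ S → G.Adj a b → a = r ∧ b = u) (s t : BT)
    (hs : Enc (G.induce S) ⟨r, hr⟩ s) (ht : Enc (G.induce Sᶜ) ⟨u, hu⟩ t) :
    Enc G r (join s t) := by
  classical
  obtain ⟨cs, ds, fs, fsi, fsa, fsr⟩ := hs
  obtain ⟨ct, dt, ft, fti, fta, ftr⟩ := ht
  refine ⟨?_, ?_, ?_⟩
  · show Fintype.card V = s.size + t.size
    rw [← cs, ← ct, ← Fintype.card_sum]
    exact (Fintype.card_congr (Equiv.Set.sumCompl S)).symm
  · intro z w
    rw [← Matrix.det_submatrix_equiv_self (Equiv.Set.sumCompl S),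
      blocks G r u S hr hu hru hS z w,
      det_join _ _ _ _ (Phi z s) (Psi z s) (Phi z t) (Psi z t) (ds z) (dt z) w]
    rfl
  · set c : ℕ := if s.av && t.av then 1 else 0 with hc
    have hc1 : ∀ i : Fin c, s.av = true ∧ t.av = true := by
      intro i
      by_contra hcon
      have : (s.av && t.av) = false := by
        rw [Bool.and_eq_false_iff]
        by_contra h
        push Not at h
        exact hcon ⟨by simpa using h.1, by simpa using h.2⟩
      have h0 : c = 0 := by rw [hc, this]; simp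
      exact (Fin.cast h0 i).elim0
    have hc2 : ∀ i j : Fin c, i = j := by
      intro i j
      have : c ≤ 1 := by rw [hc]; split <;> omega
      exact Fin.ext (by omega)
    have hnu : Fintype.card (Fin s.nu ⊕ Fin t.nu ⊕ Fin c) = (join s t).nu := by
      rw [Fintype.card_sum, Fintype.card_sum, Fintype.card_fin, Fintype.card_fin,
        Fintype.card_fin]
      show s.nu + (t.nu + c) = s.nu + t.nu + c
      ring
    have hf := match_of hnu G.Adj (fun v => (join s t).av = true → v ≠ r)
      (fun p => match p with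
        | (Sum.inl i, b) => ((fs (i, b) : S) : V)
        | (Sum.inr (Sum.inl i), b) => ((ft (i, b) : ↥Sᶜ) : V)
        | (Sum.inr (Sum.inr _), b) => if b then u else r) ?_ ?_ ?_
    · obtain ⟨f, h1, h2, h3⟩ := hf
      exact ⟨f, h1, h2, fun hav p => h3 p hav⟩
    · rintro ⟨i | i | i, b⟩ ⟨j | j | j, b'⟩ h
      · have h1 : fs (i, b) = fs (j, b') := Subtype.ext h
        have h2 := fsi h1
        simp only [Prod.mk.injEq] at h2
        rw [h2.1, h2.2]
      · exact absurd (show ((ft (j, b') : ↥Sᶜ) : V) ∈ S by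
          have h' : ((fs (i, b) : S) : V) = ((ft (j, b') : ↥Sᶜ) : V) := h
          rw [← h']; exact (fs (i, b)).2) (ft (j, b')).2
      · exfalso
        have h' : ((fs (i, b) : S) : V) = if b' then u else r := h
        cases b' with
        | true =>
          rw [if_pos rfl] at h'
          exact hu (h' ▸ (fs (i, b)).2)
        | false =>
          rw [if_neg (by simp)] at h'
          exact fsr (hc1 j).1 (i, b) (Subtype.ext h')
      · exact absurd (show ((ft (i, b) : ↥Sᶜ) : V) ∈ S by
          have h' : ((ft (i, b) : ↥Sᶜ) : V) = ((fs (j, b') : S) : V) := h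
          rw [h']; exact (fs (j, b')).2) (ft (i, b)).2
      · have h1 : ft (i, b) = ft (j, b') := Subtype.ext h
        have h2 := fti h1
        simp only [Prod.mk.injEq] at h2
        rw [h2.1, h2.2]
      · exfalso
        have h' : ((ft (i, b) : ↥Sᶜ) : V) = if b' then u else r := h
        cases b' with
        | true =>
          rw [if_pos rfl] at h'
          exact ftr (hc1 j).2 (i, b) (Subtype.ext h')
        | false =>
          rw [if_neg (by simp)] at h'
          exact (ft (i, b)).2 (h' ▸ hr)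
      · exfalso
        have h' : (if b then u else r) = ((fs (j, b') : S) : V) := h
        cases b with
        | true =>
          rw [if_pos rfl] at h'
          exact hu (h' ▸ (fs (j, b')).2)
        | false =>
          rw [if_neg (by simp)] at h'
          exact fsr (hc1 i).1 (j, b') (Subtype.ext h'.symm)
      · exfalso
        have h' : (if b then u else r) = ((ft (j, b') : ↥Sᶜ) : V) := h
        cases b with
        | true =>
          rw [if_pos rfl] at h'
          exact ftr (hc1 i).2 (j, b') (Subtype.ext h'.symm)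
        | false =>
          rw [if_neg (by simp)] at h'
          exact (ft (j, b')).2 (h' ▸ hr)
      · have hij := hc2 i j
        have h' : (if b then u else r) = (if b' then u else r) := h
        have hb : b = b' := by
          cases b <;> cases b'
          · rfl
          · exfalso
            simp at h'
            exact hru.ne h'
          · exfalso
            simp at h'
            exact hru.ne h'.symm
          · rfl
        rw [hij, hb]
    · rintro (i | i | i)
      · exact fsa i
      · exact fta i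
      · show G.Adj (if false = true then u else r) (if true = true then u else r)
        simpa using hru
    · rintro ⟨i | i | i, b⟩ hav
      · have hav' : s.av = true := by
          have : (s.av && !t.av) = true := hav
          simp at this
          exact this.1
        intro h
        exact fsr hav' (i, b) (Subtype.ext h)
      · intro h
        have h' : ((ft (i, b) : ↥Sᶜ) : V) = r := h
        exact (ft (i, b)).2 (h' ▸ hr)
      · exfalso
        have : (s.av && !t.av) = true := hav
        simp at this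
        rw [(hc1 i).2] at this
        exact absurd this.2 (by simp)

theorem sjoin : S_JOIN := by
  intro V _ _ G r u S hr hu hru hS s t hs ht
  classical
  exact join_enc G r u S hr hu hru hS s t hs ht

theorem link (hc : S_CUT) (hj : S_JOIN) : S_LINK := by
  have key : ∀ (k : ℕ) (V : Type) [Fintype V] [DecidableEq V] (G : SimpleGraph V)
      [DecidableRel G.Adj] (r : V), Fintype.card V = k → G.IsTree → ∃ t : BT, Enc G r t := by
    intro k
    induction k using Nat.strong_induction_on with
    | _ k ih =>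
      intro V _ _ G _ r hk hG
      by_cases h1 : 2 ≤ Fintype.card V
      · obtain ⟨u, S, hru, hr, hu, hS, hT1, hT2⟩ := hc V G r hG h1
        classical
        have hcard : Fintype.card S + Fintype.card ↥Sᶜ = Fintype.card V := by
          rw [← Fintype.card_sum]
          exact Fintype.card_congr (Equiv.Set.sumCompl S)
        have hp1 : 0 < Fintype.card S := Fintype.card_pos_iff.2 ⟨⟨r, hr⟩⟩
        have hp2 : 0 < Fintype.card ↥Sᶜ := Fintype.card_pos_iff.2 ⟨⟨u, hu⟩⟩
        obtain ⟨s, hs⟩ := ih (Fintype.card S) (by omega) S (G.induce S) ⟨r, hr⟩ rfl hT1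
        obtain ⟨t, ht⟩ := ih (Fintype.card ↥Sᶜ) (by omega) ↥Sᶜ (G.induce Sᶜ) ⟨u, hu⟩ rfl hT2
        exact ⟨join s t, enc_inst _ _ _ _ _ _ _ _ _
          (hj V G r u S hr hu hru hS s t (enc_inst _ _ _ _ _ _ _ _ _ hs)
            (enc_inst _ _ _ _ _ _ _ _ _ ht))⟩
      · have hpos : 0 < Fintype.card V := Fintype.card_pos_iff.2 ⟨r⟩
        have hone : Fintype.card V = 1 := by omega
        have hsub : Subsingleton V := Fintype.card_le_one_iff_subsingleton.1 hone.le
        refine ⟨leaf, hone, ?_, ?_⟩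
        · intro z w
          have : Unique V := ⟨⟨r⟩, fun a => Subsingleton.elim _ _⟩
          rw [Matrix.det_unique, Matrix.add_apply, ent]
          have hd : (G.degree (default : V) : ℂ) = 0 := by
            rw [SimpleGraph.degree_eq_sum_if_adj]
            refine Finset.sum_eq_zero fun j _ => ?_
            rw [if_neg]
            intro h
            exact h.ne (Subsingleton.elim _ _)
          have hA : ¬ G.Adj (default : V) default := fun h => h.ne rfl
          rw [hd, if_neg hA, if_pos rfl, Matrix.smul_apply, Matrix.single_apply,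
            if_pos ⟨Subsingleton.elim _ _, Subsingleton.elim _ _⟩]
          show z - 0 + 0 + w • (1 : ℂ) = z + w * 1
          simp
        · exact ⟨fun p => r, fun p => p.1.elim0, fun i => i.elim0, fun _ p => p.1.elim0⟩
  intro V _ _ G r hG
  classical
  exact key _ V G r rfl hG

end Pool.Agent.W214.LE
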